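import Pool.Agent.Helper19.PS.Comp
import Pool.Agent.Helper19.PS.Cone

set_option autoImplicit false

/-!
# Elements of a free group in the point stabilizers of projective piles over its profinite completion

Let `F` be a finitely generated free group, `G` its profinite completion, `(G, T)` a projective pile
and `g ∈ F` an element of the stabilizer `G_t`.

* If `G_t ≠ G`, then `g` lies in a free factor `A ≠ F` of `F`.
* The case `G_t = G` has to be excluded (even if `T` has more than one point): the pile of a fixed point
  and a free orbit is projective for all profinite groups, and the commutator of the generators of the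
  free group of rank two lies in no free factor `A ≠ F`.

The proof of the first part. Let `k` be the field with two elements. It is enough to find a derivation
`D : F → k[F]`, `D ≠ 0`, with `D g = 0`: the kernels of the derivations into `k[F]` are free factors.
Suppose that there is none. Take a finite quotient `A` of `G` such that the image of `G_t` lies in a
subgroup `A₀ ≠ A`, and a generator `x_j` of `F` whose image is not in `A₀`. Let `P` be the right submodule of
the values `D g` of the derivations `D` with `D x_j ∈ ker (k[F] → k[A])`, and let `D_i` be the Fox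
derivations. In the right module `k[F] / P` the class `μ` of `D_j g` generates a copy of `k[A]`, and
`q D_i g = 0` for `i ≠ j`, `q D_j g = μ` for the class `q` of `1`. By the completion argument of Lewin there
is a finite module `W` with elements `q`, `μ` of the same properties (`module_of_noder`). A derivation
`F → Hom(k[A], k)`, which is the coboundary of the characteristic function of `A₀`, vanishes on `G_t`, and
the projectivity of the pile lifts it to a derivation `C : F → Hom(W, k)` which vanishes on `G_t`
(`lift_of_pile`). The formula of Fox gives `0 = (C g)(q) = (C x_j)(μ) ≠ 0`.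
-/

namespace Pool.Agent.Results.MP_f46d86_al.ElementsOfStabilizers

open Pool.Agent.Q24.PF Pool.Agent.Helper19.PS

/-- The homomorphism `ι : F → G` is the profinite completion of `F` (where `G` is profinite): it has
a dense image, and all homomorphisms of `F` to finite groups extend to homomorphisms of `G` with open
kernels. -/
structure IsProfiniteCompletion {F G : Type} [Group F] [Group G] [TopologicalSpace G]
    (ι : F →* G) : Prop where
  dense : DenseRange ι
  extend : ∀ (Q : Type) [Group Q] [Finite Q] (φ : F →* Q),
    ∃ ψ : G →* Q, (∀ f, ψ (ι f) = φ f) ∧ IsOpen (ψ.ker : Set G)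

/-- `A` is a free factor of `F`: `F = A * B` for a subgroup `B`. -/
def IsFreeFactor {F : Type} [Group F] (A : Subgroup F) : Prop :=
  ∃ B : Subgroup F, Function.Bijective (Monoid.Coprod.lift A.subtype B.subtype)

/-- **Elements in point stabilizers of projective piles over free profinite completions.** -/
theorem result :
    (∀ (F : Type) [Group F] [IsFreeGroup F] [Group.FG F]
      (G : Type) [Group G] [TopologicalSpace G] [IsTopologicalGroup G] [CompactSpace G]
      [T2Space G] [TotallyDisconnectedSpace G] (ι : F →* G), IsProfiniteCompletion ι →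
      ∀ (T : Type) [TopologicalSpace T] [CompactSpace T] [T2Space T] [TotallyDisconnectedSpace T]
        (𝒢 : Pile G T), IsProjective 𝒢 → ∀ t : T, 𝒢.stab t ≠ ⊤ →
        ∀ g : F, ι g ∈ 𝒢.stab t → ∃ A : Subgroup F, IsFreeFactor A ∧ A ≠ ⊤ ∧ g ∈ A) ∧
    (∃ (F : Type) (_ : Group F) (_ : IsFreeGroup F) (_ : Group.FG F)
      (G : Type) (_ : Group G) (_ : TopologicalSpace G) (_ : IsTopologicalGroup G)
      (_ : CompactSpace G) (_ : T2Space G) (_ : TotallyDisconnectedSpace G) (ι : F →* G)
      (T : Type) (_ : TopologicalSpace T) (_ : CompactSpace T) (_ : T2Space T)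
      (_ : TotallyDisconnectedSpace T) (𝒢 : Pile G T) (t : T) (g : F),
      IsProfiniteCompletion ι ∧ IsProjective 𝒢 ∧ Nontrivial T ∧ 𝒢.stab t = ⊤ ∧ g ≠ 1 ∧
        ι g ∈ 𝒢.stab t ∧ ∀ A : Subgroup F, IsFreeFactor A → g ∈ A → A = ⊤) := by
  refine ⟨?_, ?_⟩
  · intro F _ _ hFG G _ _ _ _ _ _ ι hι T _ _ _ _ 𝒢 h𝒢 t ht g hg
    let X := IsFreeGroup.Generators F
    let e : F ≃* FreeGroup X := IsFreeGroup.toFreeGroup F
    have hX : Finite X := finite_of_fg hFG e
    let j : FreeGroup X →* G := ι.comp e.symm.toMonoidHom
    have hjr : Set.range j = Set.range ι := e.symm.surjective.range_comp ι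
    have hjd : DenseRange j := by
      unfold DenseRange
      rw [hjr]
      exact hι.dense
    have hj : ∀ (Q : Type) [Group Q] [Finite Q] (φ : FreeGroup X →* Q),
        ∃ ψ : G →* Q, (∀ f, ψ (j f) = φ f) ∧ IsOpen (ψ.ker : Set G) := by
      intro Q _ _ φ
      obtain ⟨ψ, hψ, hψo⟩ := hι.extend Q (φ.comp e.toMonoidHom)
      refine ⟨ψ, fun f => ?_, hψo⟩
      change ψ (ι (e.symm f)) = φ f
      rw [hψ]
      change φ (e (e.symm f)) = φ f
      rw [MulEquiv.apply_symm_apply]
    have hg' : j (e g) ∈ 𝒢.stab t := by
      change ι (e.symm (e g)) ∈ 𝒢.stab t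
      rw [MulEquiv.symm_apply_apply]
      exact hg
    obtain ⟨D, hD, hDg, hne⟩ := exists_der_of_pile (p := 2) 𝒢 h𝒢 j hjd hj t ht (e g) hg'
    obtain ⟨A, K, hAK, hA, hgA⟩ := factor_of_der D hD hne (e g) hDg
    refine ⟨A.comap e.toMonoidHom, ⟨_, coprod_comap e hAK⟩, ?_, hgA⟩
    intro h
    apply hA
    rw [eq_top_iff]
    intro x _
    have h1 : e.symm x ∈ A.comap e.toMonoidHom := by
      rw [h]
      exact Subgroup.mem_top _
    have h2 : e (e.symm x) ∈ A := h1
    rwa [MulEquiv.apply_symm_apply] at h2
  · obtain ⟨G, _, _, _, _, _, _, ι, hd, hι⟩ := exists_completion (FreeGroup Bool)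
    refine ⟨FreeGroup Bool, inferInstance, inferInstance, inferInstance, G, inferInstance,
      inferInstance, inferInstance, inferInstance, inferInstance, inferInstance, ι,
      Unit ⊕ G, inferInstance, inferInstance, inferInstance, inferInstance, cone G,
      Sum.inl (), FreeGroup.of true * FreeGroup.of false * (FreeGroup.of true)⁻¹ *
        (FreeGroup.of false)⁻¹, ⟨hd, hι⟩, cone_projective G, ⟨Sum.inl (), Sum.inr 1, by simp⟩,
      ?_, by decide, rfl, ?_⟩
    · rw [eq_top_iff]
      intro x _
      rfl
    · rintro A ⟨K, hK⟩ hg
      exact commutator_not_mem hK hg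

end Pool.Agent.Results.MP_f46d86_al.ElementsOfStabilizers
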